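import Pool.Agent.T2H70.DE.Point

set_option autoImplicit false
set_option linter.unusedSectionVars false

open MeasureTheory Set Filter Topology

namespace Pool.Agent.T2H70.DE

variable {𝕜 : Type*} [RCLike 𝕜] {H : Type*} [NormedAddCommGroup H] [InnerProductSpace 𝕜 H]
  [CompleteSpace H] [NormedSpace ℝ H] [IsScalarTower ℝ 𝕜 H]

namespace Sol

variable {A : H →L[𝕜] H} {w f φ : ℝ → H} {α M N c : ℝ} (S : Sol 𝕜 A w f φ α M N c)

lemma exists_r : ∃ r : ℝ, 0 < r ∧ r < 1 ∧ r ^ 4 = 1 / 2 := by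
  refine ⟨(1 / 2 : ℝ) ^ (1 / 4 : ℝ), by positivity,
    Real.rpow_lt_one (by norm_num) (by norm_num) (by norm_num), ?_⟩
  rw [← Real.rpow_natCast, ← Real.rpow_mul (by norm_num)]
  norm_num

/-- the final constant -/
noncomputable def CC (α M N c : ℝ) : ℝ :=
  (Real.sqrt (KK M N c) * (1 / 2) ^ (1 / 4 : ℝ) / 2) / (1 - (1 / 2) ^ (1 / 4 : ℝ))
    + Real.sqrt (KK M N c) + Real.sqrt (KK M N c) / (1 - Real.sqrt (rho α c))

include S

/-- convergence along unit intervals -/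
theorem exists_limit : ∃ wi : H, ‖wi‖ ≤ M ∧ ∀ᵐ t, ∀ n : ℕ, (n : ℝ) + 2 ≤ t → t ≤ n + 3 →
    ‖w t - wi‖ ≤ CC α M N c * Real.sqrt (rho α c) ^ n := by
  have hK := S.KK_nonneg
  have hrho := S.rho_pos
  set q := Real.sqrt (rho α c) with hq
  have hq0 : 0 ≤ q := Real.sqrt_nonneg _
  have hq1 : q < 1 := by
    rw [hq, Real.sqrt_lt' one_pos, one_pow]; exact S.rho_lt
  set x : ℕ → H := fun n => mol 1 w ((n : ℝ) + 2) with hx
  have hstep : ∀ n, dist (x n) (x (n + 1)) ≤ Real.sqrt (KK M N c) * q ^ n := by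
    intro n
    rw [dist_comm, dist_eq_norm]
    have := S.mol_shift n (l := 1) zero_le_one le_rfl (t := (n : ℝ) + 2) le_rfl
    have e : ((n + 1 : ℕ) : ℝ) + 2 = (n : ℝ) + 2 + 1 := by push_cast; ring
    simp only [hx]
    rw [mul_comm, e]
    exact this
  obtain ⟨wi, hwi⟩ := cauchySeq_tendsto_of_complete (cauchySeq_of_le_geometric q _ hq1 hstep)
  refine ⟨wi, ?_, ?_⟩
  · refine le_of_tendsto hwi.norm (Eventually.of_forall fun n => ?_)
    exact mol_bound S.hwb one_pos _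
  · filter_upwards [ae_leb S.hw S.hwb] with t ht n hn1 hn2
    set r : ℝ := (1 / 2 : ℝ) ^ (1 / 4 : ℝ) with hr
    have hr0 : 0 < r := by rw [hr]; positivity
    have hr1 : r < 1 := Real.rpow_lt_one (by norm_num) (by norm_num) (by norm_num)
    have hr4 : r ^ 4 = 1 / 2 := by
      rw [hr, ← Real.rpow_natCast, ← Real.rpow_mul (by norm_num)]
      norm_num
    have e1 := S.near_mol hr0 hr1 hr4 n hn1 ht
    have e2 := S.mol_shift n (l := t - (n + 2)) (by linarith) (by linarith) (t := (n : ℝ) + 2)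
      le_rfl
    have e3 := dist_le_of_le_geometric_of_tendsto q _ hq1 hstep hwi n
    rw [dist_eq_norm] at e3
    have e4 : w t - wi = -(mol 1 w t - w t) + (mol 1 w ((n : ℝ) + 2 + (t - (n + 2)))
        - mol 1 w ((n : ℝ) + 2)) + (x n - wi) := by
      simp only [hx]
      have : (n : ℝ) + 2 + (t - (n + 2)) = t := by ring
      rw [this]
      abel
    rw [e4]
    refine (norm_add_le _ _).trans ?_
    refine (add_le_add ((norm_add_le _ _).trans (add_le_add (le_of_eq (norm_neg _)) le_rfl))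
      le_rfl).trans ?_
    refine (add_le_add (add_le_add e1 e2) e3).trans (le_of_eq ?_)
    unfold CC
    rw [← hr, ← hq]
    ring

/-- exponential convergence -/
theorem exponential : ∃ wi : H, ‖wi‖ ≤ M ∧ ∀ᵐ t : ℝ, 0 ≤ t →
    ‖w t - wi‖ ≤ ((CC α M N c + 2 * M) * (Real.sqrt (rho α c) ^ 3)⁻¹) *
      Real.exp (-(-Real.log (Real.sqrt (rho α c)) * t)) := by
  obtain ⟨wi, h1, h2⟩ := S.exists_limit
  refine ⟨wi, h1, ?_⟩
  have hK := S.KK_nonneg
  have hM := S.M_nonneg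
  have hrho := S.rho_pos
  set q := Real.sqrt (rho α c) with hq
  have hq0 : 0 < q := Real.sqrt_pos.2 hrho
  have hq1 : q < 1 := by
    rw [hq, Real.sqrt_lt' one_pos, one_pow]; exact S.rho_lt
  have hC : 0 ≤ CC α M N c := by
    unfold CC
    rw [← hq]
    have h3 : 0 < 1 - (1 / 2 : ℝ) ^ (1 / 4 : ℝ) := by
      have : (1 / 2 : ℝ) ^ (1 / 4 : ℝ) < 1 :=
        Real.rpow_lt_one (by norm_num) (by norm_num) (by norm_num)
      linarith
    have h4 : 0 < 1 - q := by linarith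
    positivity
  have hexp : ∀ t : ℝ, Real.exp (-(-Real.log q * t)) = q ^ t := by
    intro t
    rw [Real.rpow_def_of_pos hq0]
    ring_nf
  filter_upwards [h2, S.hwb] with t h3 h4 ht
  rw [hexp]
  by_cases h2t : 2 ≤ t
  · set n : ℕ := ⌊t - 2⌋₊ with hn
    have f1 : (n : ℝ) ≤ t - 2 := Nat.floor_le (by linarith)
    have f2 : t - 2 < n + 1 := Nat.lt_floor_add_one _
    refine (h3 n (by linarith) (by linarith)).trans ?_
    have f3 : q ^ n ≤ q ^ (t - 3) := by
      rw [← Real.rpow_natCast]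
      exact Real.rpow_le_rpow_of_exponent_ge hq0 hq1.le (by linarith)
    have f4 : q ^ (t - 3) = (q ^ 3)⁻¹ * q ^ t := by
      rw [Real.rpow_sub hq0, div_eq_inv_mul]
      norm_num
    have f5 : 0 ≤ (q ^ 3)⁻¹ * q ^ t := by positivity
    calc CC α M N c * q ^ n ≤ CC α M N c * ((q ^ 3)⁻¹ * q ^ t) := by
          rw [← f4]; exact mul_le_mul_of_nonneg_left f3 hC
      _ ≤ (CC α M N c + 2 * M) * ((q ^ 3)⁻¹ * q ^ t) :=
          mul_le_mul_of_nonneg_right (by linarith) f5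
      _ = _ := by ring
  · push Not at h2t
    have f1 : ‖w t - wi‖ ≤ 2 * M := (norm_sub_le _ _).trans (by linarith)
    have f2 : 1 ≤ (q ^ 3)⁻¹ * q ^ t := by
      have g1 : q ^ (3 : ℕ) ≤ q ^ t := by
        rw [← Real.rpow_natCast]
        exact Real.rpow_le_rpow_of_exponent_ge hq0 hq1.le (by push_cast; linarith)
      rw [inv_mul_eq_div, le_div_iff₀ (by positivity), one_mul]
      exact g1
    calc ‖w t - wi‖ ≤ 2 * M := f1
      _ ≤ (CC α M N c + 2 * M) * 1 := by linarith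
      _ ≤ (CC α M N c + 2 * M) * ((q ^ 3)⁻¹ * q ^ t) :=
          mul_le_mul_of_nonneg_left f2 (by positivity)
      _ = _ := by ring

end Sol

end Pool.Agent.T2H70.DE
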