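import Mathlib

set_option autoImplicit false

open MeasureTheory Set Filter Topology

namespace Pool.Agent.T2H70.DE

variable (𝕜 : Type*) [RCLike 𝕜] (H : Type*) [NormedAddCommGroup H] [InnerProductSpace 𝕜 H]
  [CompleteSpace H]

/-- Data `(A, B, V, u⁺)` satisfying (H1), (H3), (H4) and (H5) in a real or complex Hilbert space. -/
structure Data where
  /-- the operator `A` -/
  A : H →L[𝕜] H
  /-- the closed subspace `V` -/
  V : Submodule 𝕜 H
  /-- the bilinear map `B` -/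
  B : H →L[𝕜] H →L[𝕜] H
  /-- the equilibrium `u⁺` -/
  up : H
  /-- (H1): `A` is self-adjoint -/
  selfAdjoint : IsSelfAdjoint A
  /-- (H1): `V` is closed -/
  closed : IsClosed (V : Set H)
  /-- (H1): `V` is a proper subspace -/
  proper : V ≠ ⊤
  /-- (H1): the orthogonal complement of `V` has finite dimension -/
  finiteDim : FiniteDimensional 𝕜 Vᗮ
  /-- (H1): `B` is symmetric -/
  symm : ∀ x y, B x y = B y x
  /-- (H1): `B` has its values in `V` -/
  mem : ∀ x y, B x y ∈ V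
  /-- (H4): `A` is injective -/
  injective : Function.Injective A
  /-- (H5): the compression of `A` to the orthogonal complement of `V` is invertible -/
  invertible : Function.Bijective (fun x : Vᗮ => Vᗮ.orthogonalProjectionOnto (A x))
  /-- (H3): `Q(u⁺) = 0` -/
  equilibrium : B up up = 0
  /-- (H3): `T = Q'(u⁺) = 2 B(u⁺, ·)` is self-adjoint -/
  T_selfAdjoint : IsSelfAdjoint ((2 : 𝕜) • B up)
  /-- (H3): the kernel of `T` is the orthogonal complement of `V` -/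
  T_ker : ∀ x, ((2 : 𝕜) • B up) x = 0 ↔ x ∈ Vᗮ
  /-- (H3): `T ≤ - δ` on `V` -/
  T_neg : ∃ δ : ℝ, 0 < δ ∧ ∀ v ∈ V,
    RCLike.re (inner 𝕜 (((2 : 𝕜) • B up) v) v) ≤ -(δ * ‖v‖ ^ 2)
  /-- (H3): there are a skew `K` and `γ > 0` with `Re (K A - T) ≥ γ` -/
  kawashima : ∃ K : H →L[𝕜] H, ContinuousLinearMap.adjoint K = -K ∧ ∃ γ : ℝ, 0 < γ ∧
    ∀ x, γ * ‖x‖ ^ 2 ≤ RCLike.re (inner 𝕜 (K (A x) - ((2 : 𝕜) • B up) x) x)

variable {𝕜 H} [NormedSpace ℝ H] [IsScalarTower ℝ 𝕜 H]

/-- Solutions of `A u' = Q(u)` on `[0, ∞)`: strongly measurable, essentially bounded, and `A u`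
coincides almost everywhere with a locally absolutely continuous function whose derivative is
`Q(u) = B(u, u)` almost everywhere. -/
structure IsSolution (D : Data 𝕜 H) (u : ℝ → H) : Prop where
  meas : AEStronglyMeasurable u (volume.restrict (Ici 0))
  bounded : ∃ M : ℝ, ∀ᵐ t ∂(volume.restrict (Ici (0 : ℝ))), ‖u t‖ ≤ M
  eqn : ∃ φ : ℝ → H, (∀ᵐ t ∂(volume.restrict (Ici (0 : ℝ))), φ t = D.A (u t)) ∧
    (∀ T : ℝ, 0 < T → AbsolutelyContinuousOnInterval φ 0 T) ∧
    ∀ᵐ t ∂(volume.restrict (Ici (0 : ℝ))), HasDerivAt φ (D.B (u t) (u t)) t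

end Pool.Agent.T2H70.DE
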