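import Pool.Agent.T2H70.DE.Diss

set_option autoImplicit false
set_option linter.unusedSectionVars false

open MeasureTheory Set Filter Topology

namespace Pool.Agent.T2H70.DE

variable {𝕜 : Type*} [RCLike 𝕜] {H : Type*} [NormedAddCommGroup H] [InnerProductSpace 𝕜 H]
  [CompleteSpace H] [NormedSpace ℝ H] [IsScalarTower ℝ 𝕜 H]

variable (𝕜) in
/-- abstract solution data -/
structure Sol (A : H →L[𝕜] H) (w f φ : ℝ → H) (α M N c : ℝ) : Prop where
  hA : ∀ x y, ip 𝕜 (A x) y = ip 𝕜 (A y) x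
  hα : 0 < α
  hAα : ‖A‖ ≤ α
  hc : 0 < c
  hw : AEStronglyMeasurable w volume
  hwb : ∀ᵐ t, ‖w t‖ ≤ M
  hf : AEStronglyMeasurable f volume
  hfb : ∀ᵐ t, ‖f t‖ ≤ N
  hφc : ContinuousOn φ (Ici 0)
  hφ : ∀ᵐ t, 0 ≤ t → φ t = A (w t)
  hint : ∀ s t, 0 ≤ s → s ≤ t → φ t - φ s = ∫ r in s..t, f r
  hmono : ∀ h, 0 < h → h ≤ 1 → ∀ᵐ t, 0 ≤ t →
    ip 𝕜 (f (t + h) - f t) (w (t + h) - w t) ≤ -(c * ‖w (t + h) - w t‖ ^ 2)

/-- translation difference -/
def dl (h : ℝ) (w : ℝ → H) (t : ℝ) : H := w (t + h) - w t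

lemma dl_meas {w : ℝ → H} (hw : AEStronglyMeasurable w volume) (h : ℝ) :
    AEStronglyMeasurable (dl h w) volume :=
  (hw.comp_quasiMeasurePreserving
    (measurePreserving_add_right volume h).quasiMeasurePreserving).sub hw

lemma ae_shift {P : ℝ → Prop} (h : ℝ) (hP : ∀ᵐ t, P t) : ∀ᵐ t : ℝ, P (t + h) :=
  (measurePreserving_add_right volume h).quasiMeasurePreserving.ae hP

lemma dl_bound {w : ℝ → H} {M : ℝ} (hwb : ∀ᵐ t, ‖w t‖ ≤ M) (h : ℝ) :
    ∀ᵐ t, ‖dl h w t‖ ≤ 2 * M := by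
  filter_upwards [hwb, ae_shift h hwb] with t h1 h2
  unfold dl
  calc ‖w (t + h) - w t‖ ≤ ‖w (t + h)‖ + ‖w t‖ := norm_sub_le _ _
    _ ≤ 2 * M := by linarith

namespace Sol

variable {A : H →L[𝕜] H} {w f φ : ℝ → H} {α M N c : ℝ} (S : Sol 𝕜 A w f φ α M N c)

include S

lemma M_nonneg : 0 ≤ M := by
  obtain ⟨t, ht⟩ := S.hwb.exists
  exact (norm_nonneg _).trans ht

lemma N_nonneg : 0 ≤ N := by
  obtain ⟨t, ht⟩ := S.hfb.exists
  exact (norm_nonneg _).trans ht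

lemma star {h : ℝ} (hh : 0 < h) (hh1 : h ≤ 1) : ∀ᵐ a, 0 < a → ∀ b, a < b →
    c * (∫ t in a..b, ‖dl h w t‖ ^ 2) ≤ α / 2 * ‖dl h w a‖ ^ 2 ∧
    c * (∫ t in a..b, ‖dl h w t‖ ^ 2) ≤ N * h / 2 * ‖dl h w a‖ := by
  have hzm := dl_meas S.hw h
  have hzb := dl_bound S.hwb h
  filter_upwards [ae_leb hzm hzb, S.hφ, ae_shift h S.hφ] with a hl h1 h2 ha b hab
  have key : c * (∫ t in a..b, ‖dl h w t‖ ^ 2) ≤ ip 𝕜 (A (dl h w a)) (dl h w a) / 2 := by
    apply dissip A S.hA α S.hα S.hAα (dl h w) (dl h f) (dl h φ) (2 * M) (2 * N) c S.hc hzm hzb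
      (dl_meas S.hf h) (dl_bound S.hfb h) _ _ _ _ ha hab hl
    · apply ContinuousOn.sub _ S.hφc
      apply S.hφc.comp (by fun_prop)
      intro t ht
      have : (0 : ℝ) ≤ t := ht
      show (0 : ℝ) ≤ t + h
      linarith
    · filter_upwards [S.hφ, ae_shift h S.hφ] with t e1 e2 ht
      unfold dl
      rw [e1 ht, e2 (by linarith), map_sub]
    · intro s t hs hst
      unfold dl
      have e1 := S.hint s t hs hst
      have e2 := S.hint (s + h) (t + h) (by linarith) (by linarith)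
      have e3 : ∫ r in s..t, f (r + h) = ∫ r in (s + h)..(t + h), f r :=
        intervalIntegral.integral_comp_add_right f h
      rw [intervalIntegral.integral_sub _ (intInt S.hf S.hfb _ _), e3, ← e2, ← e1]
      · abel
      · have := (intInt S.hf S.hfb (s + h) (t + h)).comp_add_right h
        simpa using this
    · exact S.hmono h hh hh1
  have g1 := (abs_le.1 (abs_ip_le (𝕜 := 𝕜) (A (dl h w a)) (dl h w a))).2
  refine ⟨key.trans ?_, key.trans ?_⟩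
  · have g2 : ‖A (dl h w a)‖ ≤ α * ‖dl h w a‖ := (A.le_opNorm _).trans
      (mul_le_mul_of_nonneg_right S.hAα (norm_nonneg _))
    nlinarith [norm_nonneg (dl h w a)]
  · have g2 : ‖A (dl h w a)‖ ≤ N * h := by
      have e1 : A (dl h w a) = ∫ r in a..(a + h), f r := by
        unfold dl
        rw [map_sub, ← h1 ha.le, ← h2 (by linarith), S.hint a (a + h) ha.le (by linarith)]
      rw [e1]
      have := intervalIntegral.norm_integral_le_of_norm_le_const_ae (a := a) (b := a + h) (f := f)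
        (C := N) (by filter_upwards [S.hfb] with s hs using fun _ => hs)
      rwa [add_sub_cancel_left, abs_of_pos hh] at this
    have g3 := mul_le_mul_of_nonneg_right g2 (norm_nonneg (dl h w a))
    linarith

lemma step1 {h : ℝ} (hh : 0 < h) (hh1 : h ≤ 1) {a b : ℝ} (ha : 0 < a) (hab : a ≤ b) :
    c * (∫ t in a..b, ‖dl h w t‖ ^ 2) ≤ N * h * M := by
  have h1 : ∀ᵐ s : ℝ, s ∈ Ioo 0 a → c * (∫ t in a..b, ‖dl h w t‖ ^ 2) ≤ N * h * M := by
    filter_upwards [S.star hh hh1, dl_bound S.hwb h] with s e1 e2 hs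
    have e3 := (e1 hs.1 b (hs.2.trans_le hab)).2
    have e4 := sq_mono (dl_meas S.hw h) (dl_bound S.hwb h) hs.2.le hab (le_refl b)
    have e5 : c * (∫ t in a..b, ‖dl h w t‖ ^ 2) ≤ c * (∫ t in s..b, ‖dl h w t‖ ^ 2) :=
      mul_le_mul_of_nonneg_left e4 S.hc.le
    have e6 : N * h / 2 * ‖dl h w s‖ ≤ N * h / 2 * (2 * M) :=
      mul_le_mul_of_nonneg_left e2 (by have := S.N_nonneg; positivity)
    linarith
  have h2 : ∃ᵐ s : ℝ, s ∈ Ioo 0 a := by
    rw [frequently_ae_iff]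
    simp only [ofPred_mem_eq, Real.volume_Ioo]
    simpa using ha
  obtain ⟨s, hs1, hs2⟩ := (h2.and_eventually h1).exists
  exact hs2 hs1

lemma step2 {h : ℝ} (hh : 0 < h) (hh1 : h ≤ 1) {b : ℝ} (hb : 2 ≤ b) :
    ∫ t in (2 : ℝ)..b, ‖dl h w t‖ ^ 2 ≤ N * h / 2 * Real.sqrt (N * h * M / c) / c := by
  have hN := S.N_nonneg
  have hM := S.M_nonneg
  have hc := S.hc
  have hzm := dl_meas S.hw h
  have hzb := dl_bound S.hwb h
  have h1 : ((2 : ℝ) - 1) * (c * (∫ t in (2 : ℝ)..b, ‖dl h w t‖ ^ 2))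
      ≤ ∫ t in (1 : ℝ)..2, N * h / 2 * ‖dl h w t‖ := by
    apply le_of_ae_le (by norm_num) ((normInt hzm hzb _ _).const_mul _)
    filter_upwards [S.star hh hh1] with s e1 e2 e3
    have e4 := (e1 (by linarith) b (by linarith)).2
    have e5 := sq_mono hzm hzb e3.le hb (le_refl b)
    have e6 : c * (∫ t in (2 : ℝ)..b, ‖dl h w t‖ ^ 2) ≤ c * (∫ t in s..b, ‖dl h w t‖ ^ 2) :=
      mul_le_mul_of_nonneg_left e5 hc.le
    linarith
  rw [intervalIntegral.integral_const_mul] at h1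
  have h2 := cs (show (1 : ℝ) < 2 by norm_num) (normInt hzm hzb 1 2) (sqInt hzm hzb 1 2)
  have h3 := S.step1 hh hh1 (show (0 : ℝ) < 1 by norm_num) (show (1 : ℝ) ≤ 2 by norm_num)
  have h4 : ∫ t in (1 : ℝ)..2, ‖dl h w t‖ ≤ Real.sqrt (N * h * M / c) := by
    apply Real.le_sqrt_of_sq_le
    refine h2.trans ?_
    rw [le_div_iff₀ hc]
    linarith
  rw [le_div_iff₀ hc]
  have h5 : N * h / 2 * (∫ t in (1 : ℝ)..2, ‖dl h w t‖) ≤ N * h / 2 * Real.sqrt (N * h * M / c) :=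
    mul_le_mul_of_nonneg_left h4 (by positivity)
  linarith

lemma step3 {h : ℝ} (hh : 0 < h) (hh1 : h ≤ 1) (n : ℕ) : ∀ {b : ℝ}, (n : ℝ) + 2 ≤ b →
    ∫ t in ((n : ℝ) + 2)..b, ‖dl h w t‖ ^ 2
      ≤ (α / 2 / (c + α / 2)) ^ n * (N * h / 2 * Real.sqrt (N * h * M / c) / c) := by
  have hc := S.hc
  have hα := S.hα
  have hzm := dl_meas S.hw h
  have hzb := dl_bound S.hwb h
  induction n with
  | zero =>
    intro b hb
    simp only [Nat.cast_zero, zero_add, pow_zero, one_mul] at hb ⊢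
    exact S.step2 hh hh1 hb
  | succ n ih =>
    intro b hb
    push_cast at hb ⊢
    have hn : (0 : ℝ) ≤ n := Nat.cast_nonneg n
    have e1 := ih (b := b) (by linarith)
    have e2 : (((n : ℝ) + 1 + 2) - (n + 2)) * (c * (∫ t in ((n : ℝ) + 1 + 2)..b, ‖dl h w t‖ ^ 2))
        ≤ ∫ t in ((n : ℝ) + 2)..(n + 1 + 2), α / 2 * ‖dl h w t‖ ^ 2 := by
      apply le_of_ae_le (by linarith) ((sqInt hzm hzb _ _).const_mul _)
      filter_upwards [S.star hh hh1] with s g1 g2 g3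
      have g4 := (g1 (by linarith) b (by linarith)).1
      have g5 := sq_mono hzm hzb g3.le hb (le_refl b)
      have g6 := mul_le_mul_of_nonneg_left g5 hc.le
      linarith
    rw [intervalIntegral.integral_const_mul] at e2
    have e3 : (∫ t in ((n : ℝ) + 2)..(n + 1 + 2), ‖dl h w t‖ ^ 2)
        = (∫ t in ((n : ℝ) + 2)..b, ‖dl h w t‖ ^ 2)
          - ∫ t in ((n : ℝ) + 1 + 2)..b, ‖dl h w t‖ ^ 2 := by
      rw [← intervalIntegral.integral_add_adjacent_intervals (a := (n : ℝ) + 2)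
        (b := (n : ℝ) + 1 + 2) (c := b) (sqInt hzm hzb _ _) (sqInt hzm hzb _ _)]
      ring
    rw [e3] at e2
    have e4 : (c + α / 2) * (∫ t in ((n : ℝ) + 1 + 2)..b, ‖dl h w t‖ ^ 2)
        ≤ α / 2 * ∫ t in ((n : ℝ) + 2)..b, ‖dl h w t‖ ^ 2 := by linarith
    have hcα : 0 < c + α / 2 := by positivity
    rw [pow_succ, mul_assoc, mul_comm (α / 2 / (c + α / 2)), ← mul_assoc]
    calc ∫ t in ((n : ℝ) + 1 + 2)..b, ‖dl h w t‖ ^ 2
        ≤ (∫ t in ((n : ℝ) + 2)..b, ‖dl h w t‖ ^ 2) * (α / 2 / (c + α / 2)) := by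
          rw [mul_div_assoc', le_div_iff₀ hcα]; linarith
      _ ≤ _ := mul_le_mul_of_nonneg_right e1 (by positivity)

end Sol

end Pool.Agent.T2H70.DE
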