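import Pool.Agent.T2H70.DE.Energy

set_option autoImplicit false
set_option linter.unusedSectionVars false

open MeasureTheory Set Filter Topology

namespace Pool.Agent.T2H70.DE

/-- Cauchy-Schwarz inequality on an interval -/
lemma cs {f : ℝ → ℝ} {a b : ℝ} (hab : a < b) (h1 : IntervalIntegrable f volume a b)
    (h2 : IntervalIntegrable (fun t => f t ^ 2) volume a b) :
    (∫ t in a..b, f t) ^ 2 ≤ (b - a) * ∫ t in a..b, f t ^ 2 := by
  set L := (∫ t in a..b, f t) / (b - a) with hL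
  have hba : 0 < b - a := by linarith
  have h3 : 0 ≤ ∫ t in a..b, (f t - L) ^ 2 :=
    intervalIntegral.integral_nonneg hab.le (fun t _ => sq_nonneg _)
  have h4 : ∫ t in a..b, (f t - L) ^ 2
      = (∫ t in a..b, f t ^ 2) - 2 * L * (∫ t in a..b, f t) + L ^ 2 * (b - a) := by
    have e1 : (fun t => (f t - L) ^ 2) = fun t => (f t ^ 2 - 2 * L * f t) + L ^ 2 := by
      funext t; ring
    rw [e1, intervalIntegral.integral_add (h2.sub (h1.const_mul _)) intervalIntegrable_const,
      intervalIntegral.integral_sub h2 (h1.const_mul _), intervalIntegral.integral_const_mul,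
      intervalIntegral.integral_const, smul_eq_mul]
    ring
  rw [h4] at h3
  have h5 : (∫ t in a..b, f t) = L * (b - a) := by rw [hL]; field_simp
  rw [h5] at h3 ⊢
  have h6 : 0 ≤ (∫ t in a..b, f t ^ 2) - L ^ 2 * (b - a) := by nlinarith
  nlinarith

variable {𝕜 : Type*} [RCLike 𝕜] {H : Type*} [NormedAddCommGroup H] [InnerProductSpace 𝕜 H]
  [CompleteSpace H] [NormedSpace ℝ H] [IsScalarTower ℝ 𝕜 H]

lemma normInt {y : ℝ → H} {M : ℝ} (hy : AEStronglyMeasurable y volume) (hb : ∀ᵐ t, ‖y t‖ ≤ M)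
    (a b : ℝ) : IntervalIntegrable (fun t => ‖y t‖) volume a b :=
  (intInt hy hb a b).norm

lemma sqInt {y : ℝ → H} {M : ℝ} (hy : AEStronglyMeasurable y volume) (hb : ∀ᵐ t, ‖y t‖ ≤ M)
    (a b : ℝ) : IntervalIntegrable (fun t => ‖y t‖ ^ 2) volume a b := by
  have h1 : AEStronglyMeasurable (fun t => ‖y t‖ ^ 2) volume := hy.norm.pow 2
  have h2 : ∀ᵐ t, ‖‖y t‖ ^ 2‖ ≤ M ^ 2 := by
    filter_upwards [hb] with t ht
    rw [Real.norm_eq_abs, abs_of_nonneg (by positivity)]
    exact pow_le_pow_left₀ (norm_nonneg _) ht 2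
  exact ((memLp_top_of_bound h1 _ h2).locallyIntegrable le_top |>.integrableOn_isCompact
    isCompact_uIcc).intervalIntegrable

lemma sq_mono {y : ℝ → H} {M : ℝ} (hy : AEStronglyMeasurable y volume) (hb : ∀ᵐ t, ‖y t‖ ≤ M)
    {a a' b b' : ℝ} (h1 : a' ≤ a) (h2 : a ≤ b) (h3 : b ≤ b') :
    ∫ t in a..b, ‖y t‖ ^ 2 ≤ ∫ t in a'..b', ‖y t‖ ^ 2 := by
  apply intervalIntegral.integral_mono_interval h1 h2 h3
  · exact Eventually.of_forall fun t => by simp only [Pi.zero_apply]; positivity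
  · exact sqInt hy hb _ _

/-- integrating an a.e. bound over an interval -/
lemma le_of_ae_le {f : ℝ → ℝ} {a b C : ℝ} (hab : a < b) (hf : IntervalIntegrable f volume a b)
    (h : ∀ᵐ t, a < t → t < b → C ≤ f t) : (b - a) * C ≤ ∫ t in a..b, f t := by
  have h1 : ∫ _ in a..b, C = (b - a) * C := by
    rw [intervalIntegral.integral_const, smul_eq_mul]
  rw [← h1]
  apply intervalIntegral.integral_mono_ae_restrict hab.le intervalIntegrable_const hf
  have h2 : ∀ᵐ t : ℝ, t ≠ a := by simp [ae_iff, measure_singleton]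
  have h3 : ∀ᵐ t : ℝ, t ≠ b := by simp [ae_iff, measure_singleton]
  rw [EventuallyLE, ae_restrict_iff' measurableSet_Icc]
  filter_upwards [h, h2, h3] with t ht ht2 ht3 hmem
  exact ht (lt_of_le_of_ne hmem.1 (Ne.symm ht2)) (lt_of_le_of_ne hmem.2 ht3)

/-- the dissipation inequality -/
theorem dissip (A : H →L[𝕜] H) (hA : ∀ x y, ip 𝕜 (A x) y = ip 𝕜 (A y) x)
    (α : ℝ) (hα : 0 < α) (hAα : ‖A‖ ≤ α)
    (y F φ : ℝ → H) (M N c : ℝ) (hc : 0 < c)
    (hy : AEStronglyMeasurable y volume) (hyb : ∀ᵐ t, ‖y t‖ ≤ M)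
    (hF : AEStronglyMeasurable F volume) (hFb : ∀ᵐ t, ‖F t‖ ≤ N)
    (hφc : ContinuousOn φ (Ici 0))
    (hφ : ∀ᵐ t, 0 ≤ t → φ t = A (y t))
    (hint : ∀ s t, 0 ≤ s → s ≤ t → φ t - φ s = ∫ r in s..t, F r)
    (hdis : ∀ᵐ t, 0 ≤ t → ip 𝕜 (F t) (y t) ≤ -(c * ‖y t‖ ^ 2))
    {a b : ℝ} (ha : 0 < a) (hab : a < b) (hla : Leb y a) :
    c * (∫ t in a..b, ‖y t‖ ^ 2) ≤ ip 𝕜 (A (y a)) (y a) / 2 := by
  set e := ip 𝕜 (A (y a)) (y a) / 2 with he
  -- the inequality at Lebesgue points
  have h1 : ∀ s, a < s → Leb y s → c * (∫ t in a..s, ‖y t‖ ^ 2) ≤ e + α / 2 * ‖y s‖ ^ 2 := by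
    intro s hs hls
    have e1 := energy_identity A hA y F φ M N hy hyb hF hFb hφc hφ hint ha hs hla hls
    have e2 : ∫ t in a..s, ip 𝕜 (F t) (y t) ≤ ∫ t in a..s, -(c * ‖y t‖ ^ 2) := by
      apply intervalIntegral.integral_mono_ae_restrict hs.le
      · have m1 : AEStronglyMeasurable (fun t => ip 𝕜 (F t) (y t)) volume :=
          RCLike.continuous_re.comp_aestronglyMeasurable (hF.inner hy)
        have m2 : ∀ᵐ t, ‖ip 𝕜 (F t) (y t)‖ ≤ |N| * |M| := by
          filter_upwards [hyb, hFb] with t t1 t2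
          rw [Real.norm_eq_abs]
          refine (abs_ip_le _ _).trans ?_
          exact mul_le_mul (t2.trans (le_abs_self _)) (t1.trans (le_abs_self _)) (norm_nonneg _)
            (abs_nonneg _)
        exact ((memLp_top_of_bound m1 _ m2).locallyIntegrable le_top |>.integrableOn_isCompact
          isCompact_uIcc).intervalIntegrable
      · exact ((sqInt hy hyb _ _).const_mul c).neg
      · rw [EventuallyLE, ae_restrict_iff' measurableSet_Icc]
        filter_upwards [hdis] with t ht hmem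
        exact ht (by linarith [hmem.1])
    rw [intervalIntegral.integral_neg, intervalIntegral.integral_const_mul] at e2
    have e3 : -(α * ‖y s‖ ^ 2) ≤ ip 𝕜 (A (y s)) (y s) := by
      have f1 := (abs_le.1 (abs_ip_le (𝕜 := 𝕜) (A (y s)) (y s))).1
      have f2 : ‖A (y s)‖ ≤ α * ‖y s‖ := (A.le_opNorm _).trans
        (mul_le_mul_of_nonneg_right hAα (norm_nonneg _))
      nlinarith [norm_nonneg (y s)]
    linarith
  -- integrate over unit intervals
  have h2 : ∀ s, a < s → c * (∫ t in a..s, ‖y t‖ ^ 2)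
      ≤ e + α / 2 * ∫ t in s..(s + 1), ‖y t‖ ^ 2 := by
    intro s hs
    have f1 : ((s + 1) - s) * (c * (∫ t in a..s, ‖y t‖ ^ 2) - e)
        ≤ ∫ t in s..(s + 1), α / 2 * ‖y t‖ ^ 2 := by
      apply le_of_ae_le (by linarith) ((sqInt hy hyb _ _).const_mul _)
      filter_upwards [ae_leb hy hyb] with t ht h3 h4
      have f2 := h1 t (by linarith) ht
      have f3 := sq_mono hy hyb (le_refl a) hs.le h3.le
      nlinarith
    rw [intervalIntegral.integral_const_mul] at f1
    linarith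
  -- telescoping
  by_contra hcon
  push Not at hcon
  set x : ℕ → ℝ := fun n => ∫ t in a..(b + n), ‖y t‖ ^ 2 with hx
  have hstep : ∀ n : ℕ, c * x 0 - e ≤ α / 2 * (x (n + 1) - x n) := by
    intro n
    have hn : (0 : ℝ) ≤ n := Nat.cast_nonneg n
    have f1 := h2 (b + n) (by linarith)
    have f2 : x (n + 1) - x n = ∫ t in (b + n)..(b + n + 1), ‖y t‖ ^ 2 := by
      simp only [hx]
      rw [intervalIntegral.integral_interval_sub_left (sqInt hy hyb _ _) (sqInt hy hyb _ _)]
      congr 1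
      push_cast
      ring
    have f3 : x 0 ≤ x n := by
      simp only [hx]
      apply sq_mono hy hyb (le_refl a)
      · push_cast; linarith
      · push_cast; linarith
    rw [f2]
    have f4 : c * x 0 ≤ c * x n := mul_le_mul_of_nonneg_left f3 hc.le
    have f5 : c * x n ≤ e + α / 2 * ∫ t in (b + n)..(b + n + 1), ‖y t‖ ^ 2 := f1
    linarith
  have hsum : ∀ n : ℕ, n * (c * x 0 - e) ≤ α / 2 * (x n - x 0) := by
    intro n
    induction n with
    | zero => simp
    | succ n ih =>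
      have := hstep n
      push_cast
      linarith
  have hbound : ∀ n : ℕ, c * x n ≤ e + α / 2 * M ^ 2 := by
    intro n
    have hn : (0 : ℝ) ≤ n := Nat.cast_nonneg n
    refine (h2 (b + n) (by linarith)).trans ?_
    have f1 : ∫ t in (b + n)..(b + n + 1), ‖y t‖ ^ 2 ≤ ∫ _ in (b + n)..(b + n + 1), M ^ 2 := by
      apply intervalIntegral.integral_mono_ae_restrict (by linarith) (sqInt hy hyb _ _)
        intervalIntegrable_const
      rw [EventuallyLE, ae_restrict_iff' measurableSet_Icc]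
      filter_upwards [hyb] with t ht _
      exact pow_le_pow_left₀ (norm_nonneg _) ht 2
    rw [intervalIntegral.integral_const, smul_eq_mul] at f1
    have : α / 2 * (∫ t in (b + n)..(b + n + 1), ‖y t‖ ^ 2) ≤ α / 2 * M ^ 2 := by
      apply mul_le_mul_of_nonneg_left _ (by positivity)
      linarith
    linarith
  have hx0 : x 0 = ∫ t in a..b, ‖y t‖ ^ 2 := by simp [hx]
  have hη : 0 < c * x 0 - e := by rw [hx0]; linarith
  obtain ⟨n, hn⟩ := exists_nat_gt ((α / 2 * ((e + α / 2 * M ^ 2) / c - x 0)) / (c * x 0 - e))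
  rw [div_lt_iff₀ hη] at hn
  have f1 := hsum n
  have f2 : x n ≤ (e + α / 2 * M ^ 2) / c := by
    rw [le_div_iff₀ hc]
    have := hbound n
    linarith
  have f3 : α / 2 * (x n - x 0) ≤ α / 2 * ((e + α / 2 * M ^ 2) / c - x 0) := by
    apply mul_le_mul_of_nonneg_left _ (by positivity)
    linarith
  linarith

end Pool.Agent.T2H70.DE
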