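import Mathlib

set_option autoImplicit false
set_option linter.unusedSectionVars false

open MeasureTheory Set Filter Topology

namespace Pool.Agent.T2H70.DE

variable {𝕜 : Type*} [RCLike 𝕜] {H : Type*} [NormedAddCommGroup H] [InnerProductSpace 𝕜 H]
  [CompleteSpace H] [NormedSpace ℝ H] [IsScalarTower ℝ 𝕜 H]

variable (𝕜) in
/-- the real part of the inner product -/
noncomputable def ip (x y : H) : ℝ := RCLike.re (inner 𝕜 x y)

omit [CompleteSpace H] [NormedSpace ℝ H] [IsScalarTower ℝ 𝕜 H] in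
lemma ip_comm (x y : H) : ip 𝕜 x y = ip 𝕜 y x := by
  unfold ip; rw [← inner_conj_symm, RCLike.conj_re]

omit [CompleteSpace H] [NormedSpace ℝ H] [IsScalarTower ℝ 𝕜 H] in
lemma ip_add_left (x y z : H) : ip 𝕜 (x + y) z = ip 𝕜 x z + ip 𝕜 y z := by
  unfold ip; rw [inner_add_left, map_add]

omit [CompleteSpace H] [NormedSpace ℝ H] [IsScalarTower ℝ 𝕜 H] in
lemma ip_sub_left (x y z : H) : ip 𝕜 (x - y) z = ip 𝕜 x z - ip 𝕜 y z := by
  unfold ip; rw [inner_sub_left, map_sub]

omit [CompleteSpace H] [NormedSpace ℝ H] [IsScalarTower ℝ 𝕜 H] in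
lemma ip_add_right (x y z : H) : ip 𝕜 x (y + z) = ip 𝕜 x y + ip 𝕜 x z := by
  unfold ip; rw [inner_add_right, map_add]

omit [CompleteSpace H] in
lemma ip_smul_left (r : ℝ) (x y : H) : ip 𝕜 (r • x) y = r * ip 𝕜 x y := by
  unfold ip
  rw [RCLike.real_smul_eq_coe_smul (K := 𝕜), inner_smul_left, RCLike.conj_ofReal,
    RCLike.re_ofReal_mul]

omit [CompleteSpace H] [NormedSpace ℝ H] [IsScalarTower ℝ 𝕜 H] in
lemma ip_self (x : H) : ip 𝕜 x x = ‖x‖ ^ 2 := by
  unfold ip; rw [← norm_sq_eq_re_inner]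

omit [CompleteSpace H] [NormedSpace ℝ H] [IsScalarTower ℝ 𝕜 H] in
lemma abs_ip_le (x y : H) : |ip 𝕜 x y| ≤ ‖x‖ * ‖y‖ :=
  (RCLike.abs_re_le_norm _).trans (norm_inner_le_norm x y)

omit [CompleteSpace H] [NormedSpace ℝ H] [IsScalarTower ℝ 𝕜 H] in
lemma ip_tendsto {ι : Type*} {l : Filter ι} {f g : ι → H} {x y : H} (hf : Tendsto f l (𝓝 x))
    (hg : Tendsto g l (𝓝 y)) : Tendsto (fun i => ip 𝕜 (f i) (g i)) l (𝓝 (ip 𝕜 x y)) :=
  (RCLike.continuous_re.tendsto _).comp (hf.inner hg)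

omit [CompleteSpace H] [NormedSpace ℝ H] [IsScalarTower ℝ 𝕜 H] in
lemma ip_continuous {X : Type*} [TopologicalSpace X] {f g : X → H} (hf : Continuous f)
    (hg : Continuous g) : Continuous (fun i => ip 𝕜 (f i) (g i)) :=
  RCLike.continuous_re.comp (hf.inner hg)

/-- the Steklov average -/
noncomputable def mol (h : ℝ) (y : ℝ → H) (t : ℝ) : H := h⁻¹ • ∫ s in t..(t + h), y s

/-- Lebesgue points -/
def Leb (y : ℝ → H) (t : ℝ) : Prop := HasDerivAt (fun x => ∫ s in (0 : ℝ)..x, y s) (y t) t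

omit [CompleteSpace H] in
lemma locInt {y : ℝ → H} {M : ℝ} (hy : AEStronglyMeasurable y volume) (hb : ∀ᵐ t, ‖y t‖ ≤ M) :
    LocallyIntegrable y volume :=
  (memLp_top_of_bound hy M hb).locallyIntegrable le_top

omit [CompleteSpace H] in
lemma intInt {y : ℝ → H} {M : ℝ} (hy : AEStronglyMeasurable y volume) (hb : ∀ᵐ t, ‖y t‖ ≤ M)
    (a b : ℝ) : IntervalIntegrable y volume a b :=
  ((locInt hy hb).integrableOn_isCompact isCompact_uIcc).intervalIntegrable

lemma ae_leb {y : ℝ → H} {M : ℝ} (hy : AEStronglyMeasurable y volume) (hb : ∀ᵐ t, ‖y t‖ ≤ M) :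
    ∀ᵐ t, Leb y t := by
  filter_upwards [LocallyIntegrable.ae_hasDerivAt_integral (locInt hy hb)] with t ht
  exact ht 0

omit [CompleteSpace H] in
lemma mol_eq {y : ℝ → H} {M : ℝ} (hy : AEStronglyMeasurable y volume) (hb : ∀ᵐ t, ‖y t‖ ≤ M)
    (h t : ℝ) : mol h y t = h⁻¹ • ((∫ s in (0 : ℝ)..(t + h), y s) - ∫ s in (0 : ℝ)..t, y s) := by
  unfold mol
  rw [intervalIntegral.integral_interval_sub_left (intInt hy hb _ _) (intInt hy hb _ _)]

omit [CompleteSpace H] in
lemma mol_continuous {y : ℝ → H} {M : ℝ} (hy : AEStronglyMeasurable y volume)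
    (hb : ∀ᵐ t, ‖y t‖ ≤ M) (h : ℝ) : Continuous (mol h y) := by
  have h1 : Continuous (fun x => ∫ s in (0 : ℝ)..x, y s) :=
    intervalIntegral.continuous_primitive (fun a b => intInt hy hb a b) 0
  have h2 : mol h y = fun t => h⁻¹ • ((∫ s in (0 : ℝ)..(t + h), y s) - ∫ s in (0 : ℝ)..t, y s) := by
    funext t; exact mol_eq hy hb h t
  rw [h2]
  exact ((h1.comp (continuous_add_const h)).sub h1).const_smul _

omit [CompleteSpace H] in
lemma mol_bound {y : ℝ → H} {M : ℝ} (hb : ∀ᵐ t, ‖y t‖ ≤ M) {h : ℝ} (hh : 0 < h) (t : ℝ) :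
    ‖mol h y t‖ ≤ M := by
  unfold mol
  rw [norm_smul, norm_inv, Real.norm_eq_abs, abs_of_pos hh]
  have := intervalIntegral.norm_integral_le_of_norm_le_const_ae (a := t) (b := t + h) (f := y)
    (C := M) (by filter_upwards [hb] with s hs using fun _ => hs)
  rw [add_sub_cancel_left, abs_of_pos hh] at this
  rw [inv_mul_le_iff₀ hh, mul_comm]
  exact this

omit [CompleteSpace H] in
lemma Leb.tendsto {y : ℝ → H} {M : ℝ} (hy : AEStronglyMeasurable y volume)
    (hb : ∀ᵐ t, ‖y t‖ ≤ M) {t : ℝ} (ht : Leb y t) (u : ℕ → ℝ) (hu0 : ∀ n, 0 < u n)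
    (hu : Tendsto u atTop (𝓝 0)) : Tendsto (fun n => mol (u n) y t) atTop (𝓝 (y t)) := by
  have h1 := hasDerivAt_iff_tendsto_slope.1 ht
  have h2 : Tendsto (fun n => t + u n) atTop (𝓝[≠] t) := by
    rw [tendsto_nhdsWithin_iff]
    constructor
    · simpa using hu.const_add t
    · exact Eventually.of_forall fun n => by
        simp only [mem_compl_iff, mem_singleton_iff, add_eq_left]
        exact (hu0 n).ne'
  refine (h1.comp h2).congr fun n => ?_
  simp only [Function.comp_apply, slope, vsub_eq_sub, add_sub_cancel_left]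
  rw [mol_eq hy hb]

/-- the derivative of the energy of a Steklov average -/
lemma hasDerivAt_energy (A : H →L[𝕜] H) (hA : ∀ x y, ip 𝕜 (A x) y = ip 𝕜 (A y) x)
    (Y : ℝ → H) (t : ℝ) (G : H) (hY : ContinuousAt Y t)
    (hG : HasDerivAt (fun s => A (Y s)) G t) :
    HasDerivAt (fun s => ip 𝕜 (A (Y s)) (Y s) / 2) (ip 𝕜 G (Y t)) t := by
  rw [hasDerivAt_iff_tendsto_slope] at hG ⊢
  have h1 : Tendsto (fun s => Y s + Y t) (𝓝[≠] t) (𝓝 (Y t + Y t)) :=
    (hY.tendsto.mono_left nhdsWithin_le_nhds).add_const _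
  have h2 := (ip_tendsto (𝕜 := 𝕜) hG h1).div_const 2
  have h3 : ip 𝕜 G (Y t + Y t) / 2 = ip 𝕜 G (Y t) := by rw [ip_add_right]; ring
  rw [h3] at h2
  refine h2.congr fun s => ?_
  simp only [slope, vsub_eq_sub, smul_eq_mul]
  rw [ip_smul_left, ip_sub_left, ip_add_right, ip_add_right, hA (Y s) (Y t)]
  ring

/-- the energy identity -/
theorem energy_identity (A : H →L[𝕜] H) (hA : ∀ x y, ip 𝕜 (A x) y = ip 𝕜 (A y) x)
    (y F φ : ℝ → H) (M N : ℝ)
    (hy : AEStronglyMeasurable y volume) (hyb : ∀ᵐ t, ‖y t‖ ≤ M)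
    (hF : AEStronglyMeasurable F volume) (hFb : ∀ᵐ t, ‖F t‖ ≤ N)
    (hφc : ContinuousOn φ (Ici 0))
    (hφ : ∀ᵐ t, 0 ≤ t → φ t = A (y t))
    (hint : ∀ s t, 0 ≤ s → s ≤ t → φ t - φ s = ∫ r in s..t, F r)
    {a b : ℝ} (ha : 0 < a) (hab : a < b) (hla : Leb y a) (hlb : Leb y b) :
    ip 𝕜 (A (y b)) (y b) / 2 - ip 𝕜 (A (y a)) (y a) / 2 = ∫ t in a..b, ip 𝕜 (F t) (y t) := by
  -- Steklov averages
  have hAm : ∀ h t, 0 < h → 0 ≤ t → A (mol h y t) = h⁻¹ • ∫ s in t..(t + h), φ s := by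
    intro h t hh ht
    unfold mol
    rw [RCLike.real_smul_eq_coe_smul (K := 𝕜), map_smul, ← RCLike.real_smul_eq_coe_smul,
      ← A.intervalIntegral_comp_comm (intInt hy hyb _ _)]
    congr 1
    apply intervalIntegral.integral_congr_ae
    filter_upwards [hφ] with s hs hs2
    rw [uIoc_of_le (by linarith)] at hs2
    exact (hs (by linarith [hs2.1])).symm
  have hφi : ∀ s t, 0 ≤ s → 0 ≤ t → IntervalIntegrable φ volume s t := by
    intro s t hs ht
    apply ContinuousOn.intervalIntegrable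
    apply hφc.mono
    intro r hr
    rw [mem_uIcc] at hr
    rcases hr with hr | hr
    · exact le_trans hs hr.1
    · exact le_trans ht hr.1
  have hder : ∀ h t, 0 < h → 0 < t →
      HasDerivAt (fun s => A (mol h y s)) (mol h F t) t := by
    intro h t hh ht
    have e1 : mol h F t = h⁻¹ • (φ (t + h) - φ t) := by
      unfold mol
      rw [hint t (t + h) ht.le (by linarith)]
    rw [e1]
    have hc1 : ContinuousAt φ t := hφc.continuousAt (Ici_mem_nhds ht)
    have hc2 : ContinuousAt φ (t + h) := hφc.continuousAt (Ici_mem_nhds (by linarith))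
    have d1 : HasDerivAt (fun x => ∫ s in (0 : ℝ)..x, φ s) (φ t) t := by
      apply intervalIntegral.integral_hasDerivAt_right (hφi 0 t le_rfl ht.le) _ hc1
      exact hφc.stronglyMeasurableAtFilter_nhdsWithin measurableSet_Ici t |>.filter_mono (by
        rw [nhdsWithin_eq_nhds.2 (Ici_mem_nhds ht)])
    have d2 : HasDerivAt (fun x => ∫ s in (0 : ℝ)..x, φ s) (φ (t + h)) (t + h) := by
      apply intervalIntegral.integral_hasDerivAt_right (hφi 0 (t + h) le_rfl (by linarith)) _ hc2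
      exact hφc.stronglyMeasurableAtFilter_nhdsWithin measurableSet_Ici (t + h) |>.filter_mono (by
        rw [nhdsWithin_eq_nhds.2 (Ici_mem_nhds (by linarith))])
    have d3 : HasDerivAt (fun x => ∫ s in (0 : ℝ)..(x + h), φ s) (φ (t + h)) t := by
      have := d2.comp_add_const t h
      exact this
    have d4 := (d3.sub d1).const_smul h⁻¹
    refine d4.congr_of_eventuallyEq ?_
    filter_upwards [Ioi_mem_nhds ht] with s hs
    have hs' : 0 < s := hs
    rw [hAm h s hh hs'.le]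
    simp only [Pi.smul_apply, Pi.sub_apply]
    rw [intervalIntegral.integral_interval_sub_left (hφi _ _ le_rfl (by linarith))
      (hφi _ _ le_rfl hs'.le)]
  have hen : ∀ h, 0 < h → ip 𝕜 (A (mol h y b)) (mol h y b) / 2
      - ip 𝕜 (A (mol h y a)) (mol h y a) / 2 = ∫ t in a..b, ip 𝕜 (mol h F t) (mol h y t) := by
    intro h hh
    symm
    apply intervalIntegral.integral_eq_sub_of_hasDerivAt
      (f := fun t => ip 𝕜 (A (mol h y t)) (mol h y t) / 2)
    · intro t ht
      rw [uIcc_of_le hab.le] at ht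
      exact hasDerivAt_energy A hA (mol h y) t _ (mol_continuous hy hyb h).continuousAt
        (hder h t hh (by linarith [ht.1]))
    · apply Continuous.intervalIntegrable
      exact ip_continuous (mol_continuous hF hFb h) (mol_continuous hy hyb h)
  -- pass to the limit
  have hu : Tendsto (fun n : ℕ => 1 / ((n : ℝ) + 1)) atTop (𝓝 0) :=
    tendsto_one_div_add_atTop_nhds_zero_nat
  have hu0 : ∀ n : ℕ, 0 < 1 / ((n : ℝ) + 1) := fun n => by positivity
  have l1 : ∀ t, Leb y t → Tendsto (fun n : ℕ => ip 𝕜 (A (mol (1 / ((n : ℝ) + 1)) y t))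
      (mol (1 / ((n : ℝ) + 1)) y t) / 2) atTop (𝓝 (ip 𝕜 (A (y t)) (y t) / 2)) := by
    intro t ht
    have := ht.tendsto hy hyb _ hu0 hu
    exact (ip_tendsto ((A.continuous.tendsto _).comp this) this).div_const 2
  have l2 : Tendsto (fun n : ℕ => ∫ t in a..b, ip 𝕜 (mol (1 / ((n : ℝ) + 1)) F t)
      (mol (1 / ((n : ℝ) + 1)) y t)) atTop (𝓝 (∫ t in a..b, ip 𝕜 (F t) (y t))) := by
    apply intervalIntegral.tendsto_integral_filter_of_dominated_convergence (fun _ => |N| * |M|)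
    · apply Eventually.of_forall
      intro n
      exact (ip_continuous (mol_continuous hF hFb _) (mol_continuous hy hyb _)).aestronglyMeasurable
    · apply Eventually.of_forall
      intro n
      apply Eventually.of_forall
      intro t _
      rw [Real.norm_eq_abs]
      refine (abs_ip_le _ _).trans ?_
      exact mul_le_mul ((mol_bound hFb (hu0 n) t).trans (le_abs_self _))
        ((mol_bound hyb (hu0 n) t).trans (le_abs_self _)) (norm_nonneg _) (abs_nonneg _)
    · exact intervalIntegrable_const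
    · filter_upwards [ae_leb hy hyb, ae_leb hF hFb] with t h1 h2 _
      exact ip_tendsto (h2.tendsto hF hFb _ hu0 hu) (h1.tendsto hy hyb _ hu0 hu)
  have l3 := (l1 b hlb).sub (l1 a hla)
  refine tendsto_nhds_unique (l3.congr fun n => ?_) l2
  exact hen _ (hu0 n)

end Pool.Agent.T2H70.DE
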