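import Pool.Agent.T2H70.DE.Main

set_option autoImplicit false
set_option linter.unusedSectionVars false

open MeasureTheory Set Filter Topology

namespace Pool.Agent.T2H70.DE

variable {𝕜 : Type*} [RCLike 𝕜] {H : Type*} [NormedAddCommGroup H] [InnerProductSpace 𝕜 H]
  [CompleteSpace H] [NormedSpace ℝ H] [IsScalarTower ℝ 𝕜 H]

namespace Data

variable (D : Data 𝕜 H)

/-- the perturbation, extended by zero -/
noncomputable def ww (u : ℝ → H) : ℝ → H := (Ici (0 : ℝ)).indicator (fun t => u t - D.up)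

/-- the right side, extended by zero -/
noncomputable def ff (u : ℝ → H) : ℝ → H := (Ici (0 : ℝ)).indicator (fun t => D.B (u t) (u t))

lemma ww_apply (u : ℝ → H) {t : ℝ} (ht : 0 ≤ t) : D.ww u t = u t - D.up :=
  Set.indicator_of_mem (show t ∈ Ici (0 : ℝ) from ht) _

lemma ff_apply (u : ℝ → H) {t : ℝ} (ht : 0 ≤ t) : D.ff u t = D.T (D.ww u t)
    + D.B (D.ww u t) (D.ww u t) := by
  unfold ff
  rw [Set.indicator_of_mem (show t ∈ Ici (0 : ℝ) from ht), ← D.Q_expand, D.ww_apply u ht,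
    add_sub_cancel]

lemma ff_apply' (u : ℝ → H) {t : ℝ} (ht : 0 ≤ t) : D.ff u t = D.B (u t) (u t) :=
  Set.indicator_of_mem (show t ∈ Ici (0 : ℝ) from ht) _

lemma ff_mem (u : ℝ → H) (t : ℝ) : D.ff u t ∈ D.V := by
  unfold ff
  by_cases ht : t ∈ Ici (0 : ℝ)
  · rw [Set.indicator_of_mem ht]; exact D.mem _ _
  · rw [Set.indicator_of_notMem ht]; exact D.V.zero_mem

/-- the nonlinearity is dissipative on small vectors with the same conserved quantity -/
lemma dissipative {c ε : ℝ} (hc : ∀ x, D.P (D.A x) = 0 → ip 𝕜 (D.T x) x ≤ -(2 * c * ‖x‖ ^ 2))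
    (hε : 2 * ‖D.B‖ * ε ≤ c) {x y : H} (hx : ‖x‖ ≤ ε) (hy : ‖y‖ ≤ ε)
    (hxy : D.P (D.A (x - y)) = 0) :
    ip 𝕜 ((D.T x + D.B x x) - (D.T y + D.B y y)) (x - y) ≤ -(c * ‖x - y‖ ^ 2) := by
  have e1 : (D.T x + D.B x x) - (D.T y + D.B y y) = D.T (x - y) + D.B (x + y) (x - y) := by
    rw [map_sub, map_sub, map_add, add_apply, add_apply, D.symm y x]
    abel
  rw [e1, ip_add_left]
  have e2 := hc _ hxy
  have e3 := (abs_le.1 (abs_ip_le (𝕜 := 𝕜) (D.B (x + y) (x - y)) (x - y))).2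
  have e4 : ‖D.B (x + y) (x - y)‖ ≤ ‖D.B‖ * ‖x + y‖ * ‖x - y‖ := D.B.le_opNorm₂ _ _
  have e5 : ‖x + y‖ ≤ 2 * ε := (norm_add_le _ _).trans (by linarith)
  have e6 : ‖D.B‖ * ‖x + y‖ ≤ c := by
    calc ‖D.B‖ * ‖x + y‖ ≤ ‖D.B‖ * (2 * ε) := mul_le_mul_of_nonneg_left e5 (by positivity)
      _ = 2 * ‖D.B‖ * ε := by ring
      _ ≤ c := hε
  have e7 : ‖D.B (x + y) (x - y)‖ * ‖x - y‖ ≤ c * ‖x - y‖ ^ 2 := by
    calc ‖D.B (x + y) (x - y)‖ * ‖x - y‖ ≤ (‖D.B‖ * ‖x + y‖ * ‖x - y‖) * ‖x - y‖ :=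
          mul_le_mul_of_nonneg_right e4 (norm_nonneg _)
      _ ≤ (c * ‖x - y‖) * ‖x - y‖ := by
          apply mul_le_mul_of_nonneg_right _ (norm_nonneg _)
          exact mul_le_mul_of_nonneg_right e6 (norm_nonneg _)
      _ = _ := by ring
  linarith

/-- conservation of `P A w` -/
lemma conserved {φ f : ℝ → H} {N : ℝ} (hf : AEStronglyMeasurable f volume)
    (hfb : ∀ᵐ t, ‖f t‖ ≤ N) (hV : ∀ t, f t ∈ D.V)
    (hint : ∀ s t, 0 ≤ s → s ≤ t → φ t - φ s = ∫ r in s..t, f r) {s t : ℝ} (hs : 0 ≤ s)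
    (hst : s ≤ t) : D.P (φ t) = D.P (φ s) := by
  have e1 : D.P (φ t - φ s) = 0 := by
    rw [hint s t hs hst, ← D.P.intervalIntegral_comp_comm (intInt hf hfb _ _)]
    have : (fun r => D.P (f r)) = fun _ => 0 := by
      funext r; exact D.P_of_mem (hV r)
    rw [this, intervalIntegral.integral_zero]
  rw [map_sub, sub_eq_zero] at e1
  exact e1

/-- the abstract solution data of a small solution -/
theorem toSol {c ε : ℝ} (hc0 : 0 < c)
    (hc : ∀ x, D.P (D.A x) = 0 → ip 𝕜 (D.T x) x ≤ -(2 * c * ‖x‖ ^ 2))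
    (hε0 : 0 < ε) (hε : 2 * ‖D.B‖ * ε ≤ c) (u : ℝ → H) (hu : IsSolution D u)
    (hs : ∀ᵐ t ∂(volume.restrict (Ici (0 : ℝ))), ‖u t - D.up‖ ≤ ε) :
    ∃ φ : ℝ → H, Sol 𝕜 D.A (D.ww u) (D.ff u) φ (‖D.A‖ + 1) ε (‖D.T‖ * ε + ‖D.B‖ * ε * ε) c ∧
      ∀ s t, 0 ≤ s → s ≤ t → D.P (φ t) = D.P (φ s) := by
  have hwm : AEStronglyMeasurable (D.ww u) volume := by
    unfold ww
    rw [aestronglyMeasurable_indicator_iff measurableSet_Ici]
    exact hu.meas.sub aestronglyMeasurable_const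
  have hwb : ∀ᵐ t, ‖D.ww u t‖ ≤ ε := by
    rw [ae_restrict_iff' measurableSet_Ici] at hs
    filter_upwards [hs] with t ht
    by_cases h0 : t ∈ Ici (0 : ℝ)
    · rw [D.ww_apply u h0]; exact ht h0
    · unfold ww
      rw [Set.indicator_of_notMem h0, norm_zero]; exact hε0.le
  have hfm : AEStronglyMeasurable (D.ff u) volume := by
    unfold ff
    rw [aestronglyMeasurable_indicator_iff measurableSet_Ici]
    have hcont : Continuous (fun x : H => D.B x x) := by fun_prop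
    exact hcont.comp_aestronglyMeasurable hu.meas
  have hfb : ∀ᵐ t, ‖D.ff u t‖ ≤ ‖D.T‖ * ε + ‖D.B‖ * ε * ε := by
    filter_upwards [hwb] with t ht
    by_cases h0 : t ∈ Ici (0 : ℝ)
    · rw [D.ff_apply u h0]
      refine (norm_add_le _ _).trans (add_le_add ?_ ?_)
      · exact (D.T.le_opNorm _).trans (mul_le_mul_of_nonneg_left ht (norm_nonneg _))
      · refine (D.B.le_opNorm₂ _ _).trans ?_
        gcongr
    · unfold ff
      rw [Set.indicator_of_notMem h0, norm_zero]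
      positivity
  obtain ⟨φ, hφ1, hφ2, hφ3⟩ := hu.eqn
  rw [ae_restrict_iff' measurableSet_Ici] at hφ1 hφ3
  set ψ : ℝ → H := fun t => φ t - D.A D.up with hψ
  have hint0 : ∀ s t, 0 ≤ s → s ≤ t → φ t - φ s = ∫ r in s..t, D.ff u r := by
    intro s t hs' hst
    apply ac_integral hfm hfb hφ2 _ s t hs' hst
    filter_upwards [hφ3] with t ht h0
    rw [D.ff_apply' u h0]
    exact ht h0
  have hint : ∀ s t, 0 ≤ s → s ≤ t → ψ t - ψ s = ∫ r in s..t, D.ff u r := by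
    intro s t hs' hst
    rw [← hint0 s t hs' hst, hψ]
    simp only
    abel
  have hψw : ∀ᵐ t, 0 ≤ t → ψ t = D.A (D.ww u t) := by
    filter_upwards [hφ1] with t ht h0
    rw [hψ, D.ww_apply u h0, map_sub]
    simp only
    rw [ht h0]
  have hcons : ∀ s t, 0 ≤ s → s ≤ t → D.P (ψ t) = D.P (ψ s) := fun s t hs' hst =>
    D.conserved hfm hfb (D.ff_mem u) hint hs' hst
  have hsa : ∀ x y, inner 𝕜 (D.A x) y = inner 𝕜 x (D.A y) := by
    intro x y
    exact (ContinuousLinearMap.isSelfAdjoint_iff_isSymmetric.1 D.selfAdjoint) x y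
  refine ⟨ψ, ⟨?_, by positivity, by linarith, hc0, hwm, hwb, hfm, hfb, ?_, hψw, hint, ?_⟩, hcons⟩
  · intro x y
    rw [ip_comm (D.A y) x]
    unfold ip
    rw [hsa]
  · apply ContinuousOn.sub _ continuousOn_const
    intro t ht
    have h1 := (hφ2 (t + 1) (by have : (0 : ℝ) ≤ t := ht
                                linarith)).continuousOn
    rw [uIcc_of_le (by have : (0 : ℝ) ≤ t := ht
                       linarith)] at h1
    have h2 : ContinuousWithinAt φ (Icc 0 (t + 1)) t := h1 t ⟨ht, by linarith⟩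
    apply h2.mono_of_mem_nhdsWithin
    rw [mem_nhdsWithin]
    exact ⟨Iio (t + 1), isOpen_Iio, by simp, fun x hx => ⟨hx.2, (mem_Iio.1 hx.1).le⟩⟩
  · intro h hh hh1
    filter_upwards [hwb, ae_shift h hwb, hψw, ae_shift h hψw] with t e1 e2 e3 e4 ht
    rw [D.ff_apply u ht, D.ff_apply u (show 0 ≤ t + h by linarith)]
    apply D.dissipative hc hε e2 e1
    rw [map_sub, ← e3 ht, ← e4 (by linarith), map_sub, hcons t (t + h) ht (by linarith), sub_self]

end Data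

end Pool.Agent.T2H70.DE
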