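import Pool.Agent.T2H70.DE.Defs
import Pool.Agent.T2H70.DE.Conv

set_option autoImplicit false
set_option linter.unusedSectionVars false

open MeasureTheory Set Filter Topology

namespace Pool.Agent.T2H70.DE

variable {𝕜 : Type*} [RCLike 𝕜] {H : Type*} [NormedAddCommGroup H] [InnerProductSpace 𝕜 H]
  [CompleteSpace H] [NormedSpace ℝ H] [IsScalarTower ℝ 𝕜 H]

/-- absolutely continuous functions are integrals -/
lemma ac_integral {φ f : ℝ → H} {N : ℝ} (hf : AEStronglyMeasurable f volume)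
    (hfb : ∀ᵐ t, ‖f t‖ ≤ N) (hac : ∀ T : ℝ, 0 < T → AbsolutelyContinuousOnInterval φ 0 T)
    (hd : ∀ᵐ t : ℝ, 0 ≤ t → HasDerivAt φ (f t) t) (s t : ℝ) (hs : 0 ≤ s) (hst : s ≤ t) :
    φ t - φ s = ∫ r in s..t, f r := by
  rcases hst.eq_or_lt with rfl | hst'
  · simp
  have ht : 0 < t := hs.trans_lt hst'
  have hN : 0 ≤ N := by
    obtain ⟨x, hx⟩ := hfb.exists
    exact (norm_nonneg _).trans hx
  have h1 : AbsolutelyContinuousOnInterval (fun x => ∫ r in (0 : ℝ)..x, f r) 0 t := by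
    apply LipschitzOnWith.absolutelyContinuousOnInterval (K := ⟨N, hN⟩)
    apply LipschitzOnWith.of_dist_le_mul
    intro x _ y _
    rw [dist_eq_norm, intervalIntegral.integral_interval_sub_left (intInt hf hfb _ _)
      (intInt hf hfb _ _), Real.dist_eq]
    exact intervalIntegral.norm_integral_le_of_norm_le_const_ae
      (by filter_upwards [hfb] with r hr using fun _ => hr)
  have h2 := (hac t ht).sub h1
  obtain ⟨C, hC⟩ := h2.const_of_ae_hasDerivAt_zero (by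
    filter_upwards [hd, ae_leb hf hfb] with x hx1 hx2 hx3
    rw [uIcc_of_le ht.le] at hx3
    have := (hx1 hx3.1).sub hx2
    rwa [sub_self] at this)
  have e1 := hC t right_mem_uIcc
  have e2 := hC s (by rw [uIcc_of_le ht.le]; exact ⟨hs, hst⟩)
  simp only [Pi.sub_apply] at e1 e2
  rw [← intervalIntegral.integral_interval_sub_left (intInt hf hfb 0 t) (intInt hf hfb 0 s)]
  have e3 : φ t - (∫ r in (0 : ℝ)..t, f r) = φ s - ∫ r in (0 : ℝ)..s, f r := e1.trans e2.symm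
  have e4 := sub_eq_sub_iff_add_eq_add.1 e3
  rw [sub_eq_sub_iff_add_eq_add, e4, add_comm]

namespace Data

variable (D : Data 𝕜 H)

/-- the operator `T` -/
noncomputable def T : H →L[𝕜] H := (2 : 𝕜) • D.B D.up

/-- projection on the complement of `V` -/
noncomputable def P : H →L[𝕜] D.Vᗮ := D.Vᗮ.orthogonalProjectionOnto

/-- the quadratic map at `u⁺ + w` -/
lemma Q_expand (w : H) : D.B (D.up + w) (D.up + w) = D.T w + D.B w w := by
  unfold T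
  rw [map_add, map_add, add_apply, add_apply,
    D.equilibrium, D.symm w D.up, smul_apply, two_smul]
  abel

lemma P_of_mem {x : H} (hx : x ∈ D.V) : D.P x = 0 := by
  unfold P
  rw [Submodule.orthogonalProjectionOnto_eq_zero_iff]
  exact Submodule.le_orthogonal_orthogonal D.V hx

lemma T_mem (x : H) : D.T x ∈ D.V := by
  unfold T
  rw [smul_apply]
  exact D.V.smul_mem _ (D.mem _ _)

/-- bounded inverse of the compression -/
lemma exists_m : ∃ m : ℝ, 0 < m ∧ ∀ x ∈ D.Vᗮ, ‖x‖ ≤ m * ‖D.P (D.A x)‖ := by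
  set L : D.Vᗮ →L[𝕜] D.Vᗮ := (D.P ∘L D.A) ∘L D.Vᗮ.subtypeL with hL
  have hbij : Function.Bijective L := D.invertible
  have hk : LinearMap.ker (L : D.Vᗮ →ₗ[𝕜] D.Vᗮ) = ⊥ := LinearMap.ker_eq_bot.2 hbij.1
  have hr : LinearMap.range (L : D.Vᗮ →ₗ[𝕜] D.Vᗮ) = ⊤ := LinearMap.range_eq_top.2 hbij.2
  set e := ContinuousLinearEquiv.ofBijective L hk hr with he
  refine ⟨‖(e.symm : D.Vᗮ →L[𝕜] D.Vᗮ)‖ + 1, by positivity, fun x hx => ?_⟩
  have h1 : (⟨x, hx⟩ : D.Vᗮ) = e.symm (e ⟨x, hx⟩) := (e.symm_apply_apply _).symm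
  have h2 : e ⟨x, hx⟩ = D.P (D.A x) := rfl
  have h3 : ‖x‖ = ‖(⟨x, hx⟩ : D.Vᗮ)‖ := rfl
  rw [h3, h1, h2]
  have h4 := (e.symm : D.Vᗮ →L[𝕜] D.Vᗮ).le_opNorm (D.P (D.A x))
  have h5 : ‖e.symm (D.P (D.A x))‖ ≤ ‖(e.symm : D.Vᗮ →L[𝕜] D.Vᗮ)‖ * ‖D.P (D.A x)‖ := h4
  nlinarith [norm_nonneg (D.P (D.A x))]

/-- coercivity of `-T` on the kernel of `P A` -/
lemma coercive : ∃ c : ℝ, 0 < c ∧ ∀ x, D.P (D.A x) = 0 → ip 𝕜 (D.T x) x ≤ -(2 * c * ‖x‖ ^ 2) := by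
  obtain ⟨m, hm, hm2⟩ := D.exists_m
  obtain ⟨δ, hδ, hδ2⟩ := D.T_neg
  have : CompleteSpace D.V := D.closed.completeSpace_coe
  set κ : ℝ := 1 + (m * ‖D.A‖) ^ 2 with hκ
  have hκ0 : 0 < κ := by positivity
  refine ⟨δ / κ / 2, by positivity, fun x hx => ?_⟩
  set x2 : H := D.V.starProjection x with hx2
  set x1 : H := x - x2 with hx1
  have hx2m : x2 ∈ D.V := by rw [hx2]; exact Submodule.starProjection_apply_mem _ _
  have hx1m : x1 ∈ D.Vᗮ := by rw [hx1, hx2]; exact Submodule.sub_starProjection_mem_orthogonal x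
  have hx12 : x = x1 + x2 := by rw [hx1]; abel
  have hT1 : D.T x1 = 0 := (D.T_ker x1).2 hx1m
  have hTx : D.T x = D.T x2 := by
    rw [hx12, map_add, hT1, zero_add]
  have hip : ip 𝕜 (D.T x) x = ip 𝕜 (D.T x2) x2 := by
    rw [hTx]
    have e1 : ip 𝕜 (D.T x2) x = ip 𝕜 (D.T x2) x1 + ip 𝕜 (D.T x2) x2 := by
      rw [← ip_add_right, ← hx12]
    have e2 : ip 𝕜 (D.T x2) x1 = 0 := by
      unfold ip
      have : inner 𝕜 (D.T x2) x1 = 0 := Submodule.inner_right_of_mem_orthogonal (D.T_mem x2) hx1m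
      rw [this, map_zero]
    rw [e1, e2, zero_add]
  have h1 : ip 𝕜 (D.T x2) x2 ≤ -(δ * ‖x2‖ ^ 2) := hδ2 x2 hx2m
  have h2 : ‖x1‖ ≤ m * ‖D.A‖ * ‖x2‖ := by
    have e1 : D.P (D.A x1) = -D.P (D.A x2) := by
      have : D.P (D.A x1) + D.P (D.A x2) = 0 := by
        rw [← map_add, ← map_add, ← hx12, hx]
      exact eq_neg_of_add_eq_zero_left this
    have e2 := hm2 x1 hx1m
    rw [e1, norm_neg] at e2
    have e3 : ‖D.P (D.A x2)‖ ≤ ‖D.A‖ * ‖x2‖ :=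
      (Submodule.norm_orthogonalProjectionOnto_apply_le _ _).trans (D.A.le_opNorm _)
    calc ‖x1‖ ≤ m * ‖D.P (D.A x2)‖ := e2
      _ ≤ m * (‖D.A‖ * ‖x2‖) := mul_le_mul_of_nonneg_left e3 hm.le
      _ = _ := by ring
  have h3 : ‖x‖ ^ 2 = ‖x1‖ ^ 2 + ‖x2‖ ^ 2 := by
    have e1 : inner 𝕜 x1 x2 = 0 := Submodule.inner_left_of_mem_orthogonal hx2m hx1m
    rw [hx12, sq, sq, sq]
    exact norm_add_sq_eq_norm_sq_add_norm_sq_of_inner_eq_zero x1 x2 e1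
  have h4 : ‖x‖ ^ 2 ≤ κ * ‖x2‖ ^ 2 := by
    rw [h3, hκ]
    have : ‖x1‖ ^ 2 ≤ (m * ‖D.A‖ * ‖x2‖) ^ 2 := pow_le_pow_left₀ (norm_nonneg _) h2 2
    nlinarith
  rw [hip]
  have h5 : δ / κ * ‖x‖ ^ 2 ≤ δ * ‖x2‖ ^ 2 := by
    calc δ / κ * ‖x‖ ^ 2 ≤ δ / κ * (κ * ‖x2‖ ^ 2) :=
          mul_le_mul_of_nonneg_left h4 (by positivity)
      _ = δ * ‖x2‖ ^ 2 := by field_simp
  have h6 : 2 * (δ / κ / 2) * ‖x‖ ^ 2 = δ / κ * ‖x‖ ^ 2 := by ring
  rw [h6]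
  linarith

end Data

end Pool.Agent.T2H70.DE
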