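import Pool.Agent.T2H70.DE.Diff

set_option autoImplicit false
set_option linter.unusedSectionVars false

open MeasureTheory Set Filter Topology

namespace Pool.Agent.T2H70.DE

variable {𝕜 : Type*} [RCLike 𝕜] {H : Type*} [NormedAddCommGroup H] [InnerProductSpace 𝕜 H]
  [CompleteSpace H] [NormedSpace ℝ H] [IsScalarTower ℝ 𝕜 H]

lemma shiftInt {w : ℝ → H} {M : ℝ} (hw : AEStronglyMeasurable w volume)
    (hwb : ∀ᵐ t, ‖w t‖ ≤ M) (h a b : ℝ) :
    IntervalIntegrable (fun t => w (t + h)) volume a b := by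
  have := (intInt hw hwb (a + h) (b + h)).comp_add_right h
  simpa using this

lemma mol_double {w : ℝ → H} {M : ℝ} (hw : AEStronglyMeasurable w volume)
    (hwb : ∀ᵐ t, ‖w t‖ ≤ M) {l : ℝ} (hl : 0 < l) (t : ℝ) :
    mol (2 * l) w t - mol l w t = (2 * l)⁻¹ • ∫ s in t..(t + l), dl l w s := by
  unfold mol dl
  rw [intervalIntegral.integral_sub (shiftInt hw hwb _ _ _) (intInt hw hwb _ _),
    intervalIntegral.integral_comp_add_right]
  have e1 : (∫ s in t..(t + 2 * l), w s) = (∫ s in t..(t + l), w s)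
      + ∫ s in (t + l)..(t + l + l), w s := by
    rw [intervalIntegral.integral_add_adjacent_intervals (intInt hw hwb _ _) (intInt hw hwb _ _)]
    congr 1
    ring
  have e2 : l⁻¹ • (∫ s in t..(t + l), w s) = (2 * l)⁻¹ • ((2 : ℝ) • ∫ s in t..(t + l), w s) := by
    rw [smul_smul]
    congr 1
    field_simp
  rw [e1, e2, ← smul_sub, two_smul]
  congr 1
  abel

namespace Sol

variable {A : H →L[𝕜] H} {w f φ : ℝ → H} {α M N c : ℝ} (S : Sol 𝕜 A w f φ α M N c)

/-- the decay ratio -/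
noncomputable def rho (α c : ℝ) : ℝ := α / 2 / (c + α / 2)

/-- the size constant -/
noncomputable def KK (M N c : ℝ) : ℝ := N / 2 / c * Real.sqrt (N * M / c)

include S

lemma rho_pos : 0 < rho α c := by
  have := S.hc; have := S.hα; unfold rho; positivity

lemma rho_lt : rho α c < 1 := by
  have := S.hc; have := S.hα
  unfold rho; rw [div_lt_one (by positivity)]; linarith

lemma KK_nonneg : 0 ≤ KK M N c := by
  have := S.hc; have := S.N_nonneg; unfold KK; positivity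

lemma X_eq {h s : ℝ} (hs : 0 ≤ s) (hh : h = s ^ 2) :
    N * h / 2 * Real.sqrt (N * h * M / c) / c = KK M N c * (h * s) := by
  have e : N * h * M / c = s ^ 2 * (N * M / c) := by rw [hh]; ring
  rw [e, Real.sqrt_mul (sq_nonneg s), Real.sqrt_sq hs]
  unfold KK
  ring

/-- the L^1 bound of differences on short intervals -/
lemma short {h s : ℝ} (hs : 0 < s) (hh : h = s ^ 2) (hh1 : h ≤ 1) (n : ℕ) {t l : ℝ}
    (ht : (n : ℝ) + 2 ≤ t) (hl : 0 < l) :
    ∫ r in t..(t + l), ‖dl h w r‖ ≤ Real.sqrt (l * (rho α c ^ n * (KK M N c * (h * s)))) := by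
  have hh0 : 0 < h := by rw [hh]; positivity
  have hzm := dl_meas S.hw h
  have hzb := dl_bound S.hwb h
  apply Real.le_sqrt_of_sq_le
  refine (cs (by linarith) (normInt hzm hzb _ _) (sqInt hzm hzb _ _)).trans ?_
  rw [add_sub_cancel_left]
  apply mul_le_mul_of_nonneg_left _ hl.le
  have e1 := S.step3 hh0 hh1 n (b := t + l) (by linarith)
  rw [S.X_eq hs.le hh] at e1
  refine (sq_mono hzm hzb ht (by linarith) (le_refl _)).trans e1

lemma halving {r : ℝ} (hr : 0 < r) (hr4 : r ^ 4 = 1 / 2) (n k : ℕ) {t : ℝ}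
    (ht : (n : ℝ) + 2 ≤ t) :
    ‖mol ((1 / 2) ^ k) w t - mol ((1 / 2) ^ (k + 1)) w t‖
      ≤ (Real.sqrt (rho α c) ^ n * Real.sqrt (KK M N c) * r / 2) * r ^ k := by
  set l : ℝ := (1 / 2) ^ (k + 1) with hl
  set s : ℝ := r ^ (2 * (k + 1)) with hs
  have hs0 : 0 < s := by rw [hs]; positivity
  have hls : l = s ^ 2 := by
    rw [hl, hs, ← pow_mul, ← hr4, ← pow_mul]
    congr 1
    ring
  have hl0 : 0 < l := by rw [hl]; positivity
  have hl1 : l ≤ 1 := pow_le_one₀ (by norm_num) (by norm_num)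
  have h2l : (1 / 2 : ℝ) ^ k = 2 * l := by rw [hl, pow_succ]; ring
  rw [h2l, mol_double S.hw S.hwb hl0, norm_smul, norm_inv, Real.norm_eq_abs,
    abs_of_pos (by positivity)]
  have e1 := S.short hs0 hls hl1 n ht hl0
  have e2 : ‖∫ r in t..(t + l), dl l w r‖ ≤ ∫ r in t..(t + l), ‖dl l w r‖ :=
    intervalIntegral.norm_integral_le_integral_norm (by linarith)
  have hrho := S.rho_pos
  have e3 : Real.sqrt (l * (rho α c ^ n * (KK M N c * (l * s))))
      = (r ^ (5 * (k + 1))) * (Real.sqrt (rho α c) ^ n * Real.sqrt (KK M N c)) := by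
    have e4 : l * (rho α c ^ n * (KK M N c * (l * s)))
        = (r ^ (5 * (k + 1))) ^ 2 * ((Real.sqrt (rho α c) ^ n) ^ 2 * KK M N c) := by
      have e5 : (Real.sqrt (rho α c) ^ n) ^ 2 = rho α c ^ n := by
        rw [← pow_mul, mul_comm, pow_mul, Real.sq_sqrt hrho.le]
      rw [e5, hls, hs]
      ring
    rw [e4, Real.sqrt_mul (by positivity), Real.sqrt_sq (by positivity),
      Real.sqrt_mul (by positivity), Real.sqrt_sq (by positivity)]
  rw [e3] at e1
  have e6 : (2 * l)⁻¹ * ((r ^ (5 * (k + 1))) * (Real.sqrt (rho α c) ^ n * Real.sqrt (KK M N c)))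
      = (Real.sqrt (rho α c) ^ n * Real.sqrt (KK M N c) * r / 2) * r ^ k := by
    rw [hls, hs]
    have : (r ^ (2 * (k + 1))) ^ 2 ≠ 0 := by positivity
    field_simp
    ring
  rw [← e6]
  apply mul_le_mul_of_nonneg_left (e2.trans e1) (by positivity)

lemma near_mol {r : ℝ} (hr : 0 < r) (hr1 : r < 1) (hr4 : r ^ 4 = 1 / 2) (n : ℕ) {t : ℝ}
    (ht : (n : ℝ) + 2 ≤ t) (hl : Leb w t) :
    ‖mol 1 w t - w t‖
      ≤ (Real.sqrt (rho α c) ^ n * Real.sqrt (KK M N c) * r / 2) / (1 - r) := by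
  have h1 : Tendsto (fun k : ℕ => mol ((1 / 2) ^ k) w t) atTop (𝓝 (w t)) :=
    hl.tendsto S.hw S.hwb _ (fun k => by positivity)
      (tendsto_pow_atTop_nhds_zero_of_lt_one (by norm_num) (by norm_num))
  have h2 : ∀ k : ℕ, dist (mol ((1 / 2) ^ k) w t) (mol ((1 / 2) ^ (k + 1)) w t)
      ≤ (Real.sqrt (rho α c) ^ n * Real.sqrt (KK M N c) * r / 2) * r ^ k := by
    intro k
    rw [dist_eq_norm]
    exact S.halving hr hr4 n k ht
  have h3 := dist_le_of_le_geometric_of_tendsto₀ r _ hr1 h2 h1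
  rw [dist_eq_norm, pow_zero] at h3
  exact h3

lemma mol_shift (n : ℕ) {l : ℝ} (hl : 0 ≤ l) (hl1 : l ≤ 1) {t : ℝ} (ht : (n : ℝ) + 2 ≤ t) :
    ‖mol 1 w (t + l) - mol 1 w t‖ ≤ Real.sqrt (rho α c) ^ n * Real.sqrt (KK M N c) := by
  rcases hl.eq_or_lt with rfl | hl
  · rw [add_zero, sub_self, norm_zero]; positivity
  have e1 : mol 1 w (t + l) - mol 1 w t = ∫ s in t..(t + 1), dl l w s := by
    unfold mol dl
    rw [intervalIntegral.integral_sub (shiftInt S.hw S.hwb _ _ _) (intInt S.hw S.hwb _ _),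
      intervalIntegral.integral_comp_add_right, inv_one, one_smul, one_smul]
    congr 2
    ring
  rw [e1]
  have e2 : ‖∫ r in t..(t + 1), dl l w r‖ ≤ ∫ r in t..(t + 1), ‖dl l w r‖ :=
    intervalIntegral.norm_integral_le_integral_norm (by linarith)
  have e3 := S.short (Real.sqrt_pos.2 hl) (Real.sq_sqrt hl.le).symm hl1 n ht (l := 1) one_pos
  refine e2.trans (e3.trans ?_)
  have hrho := S.rho_pos
  have hK := S.KK_nonneg
  have hsq : Real.sqrt l ≤ 1 := by
    rw [Real.sqrt_le_one]; exact hl1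
  rw [one_mul, Real.sqrt_mul (by positivity)]
  have e5 : Real.sqrt (rho α c ^ n) = Real.sqrt (rho α c) ^ n := by
    rw [← Real.sqrt_sq (show 0 ≤ Real.sqrt (rho α c) ^ n by positivity), ← pow_mul, mul_comm,
      pow_mul, Real.sq_sqrt hrho.le]
  rw [e5]
  apply mul_le_mul_of_nonneg_left _ (by positivity)
  apply Real.sqrt_le_sqrt
  have : l * Real.sqrt l ≤ 1 := by
    calc l * Real.sqrt l ≤ 1 * 1 := mul_le_mul hl1 hsq (Real.sqrt_nonneg _) zero_le_one
      _ = 1 := one_mul 1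
  nlinarith

end Sol

end Pool.Agent.T2H70.DE
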